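import Pool.Agent.H622R2.OddPathsNP
import Pool.Agent.NPC.Sat2

/-!
# The disjoint odd paths problem is NP-complete

An instance of ODD-PATHS consists of a multigraph with vertices `V : List ℕ` and edges
`E : List MEdge` (an edge is a label together with its two ends), a positive number `k`, and two
sets `X`, `Y` of `k` vertices.  The question is whether there are `k` different pairwise
internally disjoint `(X, Y)`-paths of odd length.  The problem is `NP`-complete under
polynomial-time many-one reductions, so that it lies in `coNP` exactly when `NP = coNP`.
-/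

namespace Pool.Agent.Results.MP_636301_lc.OddPathsNPComplete

open Pool.Agent.NPC Pool.Agent.H622R2

/-- ODD-PATHS is `NP`-complete; it is in `coNP` if and only if `NP = coNP`. -/
theorem result : (InNPP OddPaths ∧ NPHardP OddPaths) ∧
    (InCoNPP OddPaths ↔ ∀ L : Set (List Bool), InNP L ↔ InCoNP L) :=
  ⟨⟨OP.inNPP_oddPaths, OP.hardI_oddPaths.toNPHardP⟩,
    inCoNP_iff_of_complete OP.inNPP_oddPaths OP.hardI_oddPaths.toNPHardP⟩

end Pool.Agent.Results.MP_636301_lc.OddPathsNPComplete
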